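import Mathlib

set_option autoImplicit false

/-!
Monotone paths on polyhedra: definitions and a certificate theorem.
-/

namespace Pool.Agent.H81.MonoPath

open Matrix

variable {d : ℕ}

/-- A polyhedron in `ℝ^d`: the intersection of finitely many closed half-spaces. -/
def IsPolyhedron (P : Set (Fin d → ℝ)) : Prop :=
  ∃ (m : ℕ) (a : Fin m → Fin d → ℝ) (b : Fin m → ℝ), P = {x | ∀ i, a i ⬝ᵥ x ≤ b i}

/-- `F` is a nonempty face of `P`: the set of points of `P` at which some linear inequality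
`c · x ≤ δ`, valid on `P`, holds with equality. -/
def IsFace (P F : Set (Fin d → ℝ)) : Prop :=
  F.Nonempty ∧ ∃ (c : Fin d → ℝ) (δ : ℝ), (∀ x ∈ P, c ⬝ᵥ x ≤ δ) ∧ F = {x ∈ P | c ⬝ᵥ x = δ}

/-- The dimension of (the affine hull of) a nonempty set. -/
noncomputable def dim (S : Set (Fin d → ℝ)) : ℕ := Module.finrank ℝ (vectorSpan ℝ S)

/-- The facets of `P`: its faces of dimension `d - 1`. -/
def facets (P : Set (Fin d → ℝ)) : Set (Set (Fin d → ℝ)) := {F | IsFace P F ∧ dim F + 1 = d}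

/-- `v 0, v 1, …, v (m - 1)` is a monotone path with `m` vertices on `P` for the functional `φ`:
each `{v i}` is a vertex of `P`, each segment `[v i, v (i + 1)]` is an edge of `P`, and
`φ (v i) < φ (v (i + 1))`. -/
def IsMonotonePath (P : Set (Fin d → ℝ)) (φ : (Fin d → ℝ) →ₗ[ℝ] ℝ) (m : ℕ)
    (v : Fin m → Fin d → ℝ) : Prop :=
  (∀ i, IsFace P {v i}) ∧
    ∀ i j : Fin m, (j : ℕ) = i + 1 → IsFace P (segment ℝ (v i) (v j)) ∧ φ (v i) < φ (v j)

/-- There is a `d`-dimensional polyhedron with exactly `n` facets which, for some linear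
functional, has a monotone path with `m` vertices. In other words, `M(d, n) ≥ m`. -/
def HasMonotonePath (d n m : ℕ) : Prop :=
  ∃ P : Set (Fin d → ℝ), IsPolyhedron P ∧ P.Nonempty ∧ dim P = d ∧
    (facets P).Finite ∧ (facets P).ncard = n ∧
      ∃ (φ : (Fin d → ℝ) →ₗ[ℝ] ℝ) (v : Fin m → Fin d → ℝ), IsMonotonePath P φ m v

section Cert

variable {n m : ℕ}

/-- the polyhedron of a system -/
def poly (a : Fin n → Fin d → ℝ) (b : Fin n → ℝ) : Set (Fin d → ℝ) := {x | ∀ j, a j ⬝ᵥ x ≤ b j}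

lemma exists_small (a : Fin n → Fin d → ℝ) (b : Fin n → ℝ) (v u : Fin d → ℝ)
    (h : ∀ j, a j ⬝ᵥ v < b j ∨ (a j ⬝ᵥ v = b j ∧ a j ⬝ᵥ u ≤ 0)) :
    ∃ ε : ℝ, 0 < ε ∧ v + ε • u ∈ poly a b := by
  have key : ∀ j, ∀ᶠ ε in nhdsWithin (0 : ℝ) (Set.Ioi 0), a j ⬝ᵥ (v + ε • u) ≤ b j := by
    intro j
    rcases h j with h | ⟨h1, h2⟩
    · have hc : Filter.Tendsto (fun ε : ℝ => a j ⬝ᵥ (v + ε • u)) (nhdsWithin (0 : ℝ) (Set.Ioi 0))
          (nhds (a j ⬝ᵥ v)) := by
        have : Continuous (fun ε : ℝ => a j ⬝ᵥ (v + ε • u)) := by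
          simp only [dotProduct_add, dotProduct_smul]
          fun_prop
        have h0 := (this.tendsto 0).mono_left (nhdsWithin_le_nhds (s := Set.Ioi (0 : ℝ)))
        simpa using h0
      filter_upwards [hc.eventually (gt_mem_nhds h)] with ε hε using hε.le
    · filter_upwards [self_mem_nhdsWithin] with ε hε
      rw [dotProduct_add, dotProduct_smul, h1, smul_eq_mul]
      have : ε * (a j ⬝ᵥ u) ≤ 0 := mul_nonpos_of_nonneg_of_nonpos (le_of_lt hε) h2
      linarith
  have := (Filter.eventually_all.2 key).and self_mem_nhdsWithin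
  obtain ⟨ε, h1, h2⟩ := this.exists
  exact ⟨ε, h2, h1⟩

/-- the data of a simple vertex: `T` lists the tight inequalities, `R` inverts their matrix -/
structure Vtx (a : Fin n → Fin d → ℝ) (b : Fin n → ℝ) (T : Fin d → Fin n) (v : Fin d → ℝ)
    (R : Matrix (Fin d) (Fin d) ℝ) : Prop where
  inv : R * Matrix.of (fun k => a (T k)) = 1
  tight : ∀ k, a (T k) ⬝ᵥ v = b (T k)
  strict : ∀ j, (∀ k, T k ≠ j) → a j ⬝ᵥ v < b j

variable {a : Fin n → Fin d → ℝ} {b : Fin n → ℝ} {T : Fin d → Fin n} {v : Fin d → ℝ}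
  {R : Matrix (Fin d) (Fin d) ℝ}

lemma Vtx.mem (h : Vtx a b T v R) : v ∈ poly a b := by
  intro j
  by_cases hj : ∃ k, T k = j
  · obtain ⟨k, rfl⟩ := hj
    exact (h.tight k).le
  · push Not at hj
    exact (h.strict j hj).le

lemma Vtx.inv' (h : Vtx a b T v R) : Matrix.of (fun k => a (T k)) * R = 1 :=
  mul_eq_one_comm.1 h.inv

/-- `a (T k) · R e_l = δ_{kl}` -/
lemma Vtx.dot_col (h : Vtx a b T v R) (k l : Fin d) :
    a (T k) ⬝ᵥ (fun q => R q l) = if k = l then 1 else 0 := by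
  have := congrFun (congrFun h.inv' k) l
  rw [Matrix.mul_apply, Matrix.one_apply] at this
  exact this

/-- expansion of a vector in the columns of `R` -/
lemma Vtx.expand (h : Vtx a b T v R) (u : Fin d → ℝ) :
    u = ∑ k, (a (T k) ⬝ᵥ u) • (fun q => R q k) := by
  have h1 : u = (R * Matrix.of (fun k => a (T k))) *ᵥ u := by rw [h.inv, one_mulVec]
  rw [← mulVec_mulVec] at h1
  conv_lhs => rw [h1]
  ext q
  simp only [mulVec, dotProduct, Matrix.of_apply, Finset.sum_apply, Pi.smul_apply, smul_eq_mul]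
  apply Finset.sum_congr rfl
  intro k _
  ring

lemma Vtx.inj (h : Vtx a b T v R) : Function.Injective T := by
  intro k l hkl
  by_contra hne
  have h1 := h.dot_col k l
  rw [hkl, h.dot_col l l] at h1
  simp [hne] at h1

lemma Vtx.step (h : Vtx a b T v R) (k : Fin d) :
    ∃ ε : ℝ, 0 < ε ∧ v + ε • (fun q => - R q k) ∈ poly a b := by
  apply exists_small
  intro j
  by_cases hj : ∃ l, T l = j
  · obtain ⟨l, rfl⟩ := hj
    right
    refine ⟨h.tight l, ?_⟩
    have : a (T l) ⬝ᵥ (fun q => - R q k) = - (a (T l) ⬝ᵥ (fun q => R q k)) := by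
      simp [dotProduct]
    rw [this, h.dot_col]
    split_ifs <;> norm_num
  · push Not at hj
    left; exact h.strict j hj

lemma dot_neg_col (h : Vtx a b T v R) (l k : Fin d) :
    a (T l) ⬝ᵥ (fun q => - R q k) = if l = k then -1 else 0 := by
  have : a (T l) ⬝ᵥ (fun q => - R q k) = - (a (T l) ⬝ᵥ (fun q => R q k)) := by
    simp [dotProduct]
  rw [this, h.dot_col]
  split_ifs <;> norm_num

lemma Vtx.isFace (h : Vtx a b T v R) : IsFace (poly a b) {v} := by
  refine ⟨Set.singleton_nonempty v, ∑ k, a (T k), ∑ k, b (T k), ?_, ?_⟩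
  · intro x hx
    rw [sum_dotProduct]
    exact Finset.sum_le_sum (fun k _ => hx (T k))
  · ext x
    simp only [Set.mem_singleton_iff, Set.mem_ofPred_eq]
    constructor
    · rintro rfl
      refine ⟨h.mem, ?_⟩
      rw [sum_dotProduct]
      exact Finset.sum_congr rfl (fun k _ => h.tight k)
    · rintro ⟨hx, he⟩
      rw [sum_dotProduct] at he
      have h1 : ∀ k ∈ Finset.univ, a (T k) ⬝ᵥ x = b (T k) :=
        (Finset.sum_eq_sum_iff_of_le (fun k _ => hx (T k))).1 he
      have h2 : x - v = 0 := by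
        rw [h.expand (x - v)]
        apply Finset.sum_eq_zero
        intro k hk
        rw [dotProduct_sub, h1 k hk, h.tight k, sub_self, zero_smul]
      exact sub_eq_zero.1 h2

/-- The face of the inequality `j`. -/
def fac (a : Fin n → Fin d → ℝ) (b : Fin n → ℝ) (j : Fin n) : Set (Fin d → ℝ) :=
  {x ∈ poly a b | a j ⬝ᵥ x = b j}

lemma Vtx.mem_fac (h : Vtx a b T v R) (k : Fin d) : v ∈ fac a b (T k) := ⟨h.mem, h.tight k⟩

lemma Vtx.col_mem (h : Vtx a b T v R) (k l : Fin d) (hkl : l ≠ k) :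
    (fun q => R q l) ∈ vectorSpan ℝ (fac a b (T k)) := by
  obtain ⟨ε, hε, hmem⟩ := h.step l
  have h1 : v + ε • (fun q => - R q l) ∈ fac a b (T k) := by
    refine ⟨hmem, ?_⟩
    rw [dotProduct_add, dotProduct_smul, dot_neg_col h, if_neg (Ne.symm hkl), h.tight]
    simp
  have h2 := vsub_mem_vectorSpan ℝ (h.mem_fac k) h1
  have h3 : (v -ᵥ (v + ε • (fun q => - R q l)) : Fin d → ℝ) = ε • (fun q => R q l) := by
    ext q
    simp
  rw [h3] at h2
  have h4 := Submodule.smul_mem _ ε⁻¹ h2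
  rwa [smul_smul, inv_mul_cancel₀ hε.ne', one_smul] at h4

lemma Vtx.col_mem' (h : Vtx a b T v R) (l : Fin d) :
    (fun q => R q l) ∈ vectorSpan ℝ (poly a b) := by
  obtain ⟨ε, hε, hmem⟩ := h.step l
  have h2 := vsub_mem_vectorSpan ℝ h.mem hmem
  have h3 : (v -ᵥ (v + ε • (fun q => - R q l)) : Fin d → ℝ) = ε • (fun q => R q l) := by
    ext q
    simp
  rw [h3] at h2
  have h4 := Submodule.smul_mem _ ε⁻¹ h2
  rwa [smul_smul, inv_mul_cancel₀ hε.ne', one_smul] at h4

lemma Vtx.dim_poly (h : Vtx a b T v R) : dim (poly a b) = d := by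
  have : vectorSpan ℝ (poly a b) = ⊤ := by
    rw [eq_top_iff]
    intro u _
    rw [h.expand u]
    exact Submodule.sum_mem _ (fun k _ => Submodule.smul_mem _ _ (h.col_mem' k))
  unfold dim
  rw [this, finrank_top]
  simp

/-- The linear functional `x ↦ a j · x`. -/
def lin (c : Fin d → ℝ) : (Fin d → ℝ) →ₗ[ℝ] ℝ := dotProductBilin ℝ ℝ c

lemma lin_apply (c x : Fin d → ℝ) : lin c x = c ⬝ᵥ x := rfl

lemma Vtx.ne_zero (h : Vtx a b T v R) (k : Fin d) : a (T k) ≠ 0 := by
  intro h0
  have := h.dot_col k k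
  rw [h0] at this
  simp at this

lemma Vtx.vectorSpan_fac (h : Vtx a b T v R) (k : Fin d) :
    vectorSpan ℝ (fac a b (T k)) = LinearMap.ker (lin (a (T k))) := by
  apply le_antisymm
  · rw [vectorSpan_def, Submodule.span_le]
    rintro _ ⟨x, hx, y, hy, rfl⟩
    rw [SetLike.mem_coe, LinearMap.mem_ker, lin_apply]
    change a (T k) ⬝ᵥ (x - y) = 0
    rw [dotProduct_sub, hx.2, hy.2, sub_self]
  · intro u hu
    rw [LinearMap.mem_ker, lin_apply] at hu
    rw [h.expand u]
    apply Submodule.sum_mem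
    intro l _
    by_cases hl : l = k
    · rw [hl, hu, zero_smul]; exact Submodule.zero_mem _
    · exact Submodule.smul_mem _ _ (h.col_mem k l hl)

lemma finrank_ker_lin (c : Fin d → ℝ) (hc : c ≠ 0) :
    Module.finrank ℝ (LinearMap.ker (lin c)) + 1 = d := by
  have hne : lin c ≠ 0 := by
    intro h0
    apply hc
    have h1 : c ⬝ᵥ c = 0 := by rw [← lin_apply, h0]; rfl
    exact dotProduct_self_eq_zero.1 h1
  have := Module.Dual.finrank_ker_add_one_of_ne_zero (f := lin c) hne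
  rw [Module.finrank_fin_fun] at this
  exact this

lemma Vtx.dim_fac (h : Vtx a b T v R) (k : Fin d) : dim (fac a b (T k)) + 1 = d := by
  unfold dim
  rw [h.vectorSpan_fac k]
  exact finrank_ker_lin _ (h.ne_zero k)

lemma Vtx.isFace_fac (h : Vtx a b T v R) (k : Fin d) : IsFace (poly a b) (fac a b (T k)) :=
  ⟨⟨v, h.mem_fac k⟩, a (T k), b (T k), fun _ hx => hx (T k), rfl⟩

lemma Vtx.fac_ne (h : Vtx a b T v R) (k : Fin d) (j : Fin n) (hj : T k ≠ j) :
    fac a b (T k) ≠ fac a b j := by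
  intro heq
  by_cases hex : ∃ l, T l = j
  · obtain ⟨l, rfl⟩ := hex
    have hkl : k ≠ l := fun h0 => hj (by rw [h0])
    obtain ⟨ε, hε, hmem⟩ := h.step l
    have h1 : v + ε • (fun q => - R q l) ∈ fac a b (T k) := by
      refine ⟨hmem, ?_⟩
      rw [dotProduct_add, dotProduct_smul, dot_neg_col h, if_neg hkl, h.tight]
      simp
    rw [heq] at h1
    have h2 := h1.2
    rw [dotProduct_add, dotProduct_smul, dot_neg_col h, if_pos rfl, h.tight, smul_eq_mul] at h2
    linarith
  · push Not at hex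
    have h1 := h.mem_fac k
    rw [heq] at h1
    exact absurd h1.2 (h.strict j hex).ne

/-- Every facet is one of the sets `fac a b j`. -/
lemma facet_eq_fac [Nonempty (Fin n)] (ha : ∀ j, a j ≠ 0) (hdim : dim (poly a b) = d)
    (F : Set (Fin d → ℝ)) (hF : F ∈ facets (poly a b)) : ∃ j, F = fac a b j := by
  obtain ⟨⟨⟨x₀, hx₀⟩, c, δ, hc, rfl⟩, hd⟩ := hF
  have hex : ∃ j, ∀ x ∈ {x ∈ poly a b | c ⬝ᵥ x = δ}, a j ⬝ᵥ x = b j := by
    by_contra hcon
    push Not at hcon
    choose y hy hy' using hcon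
    -- the barycentre of the `y j`
    set z : Fin d → ℝ := ∑ j, ((n : ℝ)⁻¹) • y j with hz
    have hn : (0 : ℝ) < n := by
      have : 0 < n := Fin.pos_iff_nonempty.2 inferInstance
      exact_mod_cast this
    have hsum : ∑ _j : Fin n, (n : ℝ)⁻¹ = 1 := by
      rw [Finset.sum_const, Finset.card_univ, Fintype.card_fin, nsmul_eq_mul,
        mul_inv_cancel₀ hn.ne']
    have hdot : ∀ c' : Fin d → ℝ, c' ⬝ᵥ z = ∑ j, (n : ℝ)⁻¹ * (c' ⬝ᵥ y j) := by
      intro c'
      rw [hz, dotProduct_sum]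
      exact Finset.sum_congr rfl (fun j _ => by rw [dotProduct_smul, smul_eq_mul])
    have hzstrict : ∀ i, a i ⬝ᵥ z < b i := by
      intro i
      rw [hdot]
      calc ∑ j, (n : ℝ)⁻¹ * (a i ⬝ᵥ y j) < ∑ _j : Fin n, (n : ℝ)⁻¹ * b i := by
            apply Finset.sum_lt_sum
            · intro j _
              exact mul_le_mul_of_nonneg_left ((hy j).1 i) (inv_pos.2 hn).le
            · exact ⟨i, Finset.mem_univ i, mul_lt_mul_of_pos_left
                (lt_of_le_of_ne ((hy i).1 i) (hy' i)) (inv_pos.2 hn)⟩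
        _ = b i := by rw [← Finset.sum_mul, hsum, one_mul]
    have hcz : c ⬝ᵥ z = δ := by
      rw [hdot]
      calc ∑ j, (n : ℝ)⁻¹ * (c ⬝ᵥ y j) = ∑ _j : Fin n, (n : ℝ)⁻¹ * δ :=
            Finset.sum_congr rfl (fun j _ => by rw [(hy j).2])
        _ = δ := by rw [← Finset.sum_mul, hsum, one_mul]
    have hc0 : ∀ u : Fin d → ℝ, c ⬝ᵥ u ≤ 0 := by
      intro u
      obtain ⟨ε, hε, hmem⟩ := exists_small a b z u (fun j => Or.inl (hzstrict j))
      have h1 := hc _ hmem
      rw [dotProduct_add, dotProduct_smul, hcz, smul_eq_mul] at h1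
      have h2 : ε * (c ⬝ᵥ u) ≤ 0 := by linarith
      by_contra h3
      push Not at h3
      have := mul_pos hε h3
      linarith
    have hc1 : c = 0 := by
      have h1 := hc0 c
      have h2 : 0 ≤ c ⬝ᵥ c := Finset.sum_nonneg (fun i _ => mul_self_nonneg (c i))
      exact dotProduct_self_eq_zero.1 (le_antisymm h1 h2)
    have hδ : δ = 0 := by rw [← hcz, hc1, zero_dotProduct]
    have hall : {x ∈ poly a b | c ⬝ᵥ x = δ} = poly a b := by
      ext x
      simp [hc1, hδ]
    rw [hall, hdim] at hd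
    omega
  obtain ⟨j, hj⟩ := hex
  refine ⟨j, ?_⟩
  -- the linear span of the face is the kernel of `a j`
  have hle : vectorSpan ℝ {x ∈ poly a b | c ⬝ᵥ x = δ} ≤ LinearMap.ker (lin (a j)) := by
    rw [vectorSpan_def, Submodule.span_le]
    rintro _ ⟨x, hx, y, hy, rfl⟩
    rw [SetLike.mem_coe, LinearMap.mem_ker, lin_apply]
    change a j ⬝ᵥ (x - y) = 0
    rw [dotProduct_sub, hj x hx, hj y hy, sub_self]
  have heq : vectorSpan ℝ {x ∈ poly a b | c ⬝ᵥ x = δ} = LinearMap.ker (lin (a j)) := by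
    apply Submodule.eq_of_le_of_finrank_eq hle
    have h1 := finrank_ker_lin (a j) (ha j)
    unfold dim at hd
    omega
  have hker : LinearMap.ker (lin (a j)) ≤ LinearMap.ker (lin c) := by
    rw [← heq, vectorSpan_def, Submodule.span_le]
    rintro _ ⟨x, hx, y, hy, rfl⟩
    rw [SetLike.mem_coe, LinearMap.mem_ker, lin_apply]
    change c ⬝ᵥ (x - y) = 0
    rw [dotProduct_sub, hx.2, hy.2, sub_self]
  ext x
  constructor
  · intro hx
    exact ⟨hx.1, hj x hx⟩
  · intro hx
    refine ⟨hx.1, ?_⟩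
    have h1 : x - x₀ ∈ LinearMap.ker (lin (a j)) := by
      rw [LinearMap.mem_ker, lin_apply, dotProduct_sub, hx.2, hj x₀ hx₀, sub_self]
    have h2 := hker h1
    rw [LinearMap.mem_ker, lin_apply, dotProduct_sub, hx₀.2, sub_eq_zero] at h2
    exact h2

/-- Two simple vertices which share all tight inequalities but one are joined by an edge. -/
lemma isFace_segment {T' : Fin d → Fin n} {v' : Fin d → ℝ} {R' : Matrix (Fin d) (Fin d) ℝ}
    (h : Vtx a b T v R) (h' : Vtx a b T' v' R') (k k' : Fin d) (hk : ∀ l, T' l ≠ T k)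
    (hk' : ∀ l, T l ≠ T' k') (hsub : ∀ l, l ≠ k → ∃ l', T' l' = T l) :
    IsFace (poly a b) (segment ℝ v v') := by
  classical
  set S : Finset (Fin d) := Finset.univ.erase k with hS
  -- the parameter of a point of the face
  have hpt : ∀ x, (∀ l ∈ S, a (T l) ⬝ᵥ x = b (T l)) →
      x = v + (b (T k) - a (T k) ⬝ᵥ x) • (fun q => - R q k) := by
    intro x hx
    have h1 := h.expand (x - v)
    rw [Finset.sum_eq_single k] at h1
    · rw [dotProduct_sub, h.tight k] at h1
      have h2 : x = v + (x - v) := by abel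
      rw [h2, h1]
      ext q
      simp only [Pi.add_apply, Pi.smul_apply, smul_eq_mul, dotProduct_add, dotProduct_smul,
        h.tight k, h.dot_col, if_true]
      ring
    · intro l _ hl
      rw [dotProduct_sub, hx l (Finset.mem_erase.2 ⟨hl, Finset.mem_univ _⟩), h.tight l, sub_self,
        zero_smul]
    · intro hk0; exact absurd (Finset.mem_univ k) hk0
  have hv' : ∀ l ∈ S, a (T l) ⬝ᵥ v' = b (T l) := by
    intro l hl
    obtain ⟨l', hl'⟩ := hsub l (Finset.ne_of_mem_erase hl)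
    rw [← hl']; exact h'.tight l'
  have hv'eq := hpt v' hv'
  set s' : ℝ := b (T k) - a (T k) ⬝ᵥ v' with hs'
  have hs'pos : 0 < s' := by
    have := h'.strict (T k) hk
    linarith
  have hseg : segment ℝ v v' = {x ∈ poly a b | (∑ l ∈ S, a (T l)) ⬝ᵥ x = ∑ l ∈ S, b (T l)} := by
    ext x
    constructor
    · rintro ⟨α, β, hα, hβ, hαβ, rfl⟩
      refine ⟨?_, ?_⟩
      · intro j
        rw [dotProduct_add, dotProduct_smul, dotProduct_smul, smul_eq_mul, smul_eq_mul]
        have h1 := mul_le_mul_of_nonneg_left (h.mem j) hα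
        have h2 := mul_le_mul_of_nonneg_left (h'.mem j) hβ
        calc α * (a j ⬝ᵥ v) + β * (a j ⬝ᵥ v') ≤ α * b j + β * b j := add_le_add h1 h2
          _ = b j := by rw [← add_mul, hαβ, one_mul]
      · rw [sum_dotProduct]
        apply Finset.sum_congr rfl
        intro l hl
        rw [dotProduct_add, dotProduct_smul, dotProduct_smul, smul_eq_mul, smul_eq_mul,
          h.tight l, hv' l hl, ← add_mul, hαβ, one_mul]
    · rintro ⟨hx, he⟩
      rw [sum_dotProduct] at he
      have h1 : ∀ l ∈ S, a (T l) ⬝ᵥ x = b (T l) :=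
        (Finset.sum_eq_sum_iff_of_le (fun l _ => hx (T l))).1 he
      have hxeq := hpt x h1
      set s : ℝ := b (T k) - a (T k) ⬝ᵥ x with hs
      have hs0 : 0 ≤ s := by have := hx (T k); linarith
      -- compare with the inequality `T' k'`
      set r : ℝ := a (T' k') ⬝ᵥ (fun q => - R q k) with hr
      have e1 : a (T' k') ⬝ᵥ v' = a (T' k') ⬝ᵥ v + s' * r := by
        conv_lhs => rw [hv'eq]
        rw [dotProduct_add, dotProduct_smul, smul_eq_mul]
      have e2 : a (T' k') ⬝ᵥ x = a (T' k') ⬝ᵥ v + s * r := by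
        conv_lhs => rw [hxeq]
        rw [dotProduct_add, dotProduct_smul, smul_eq_mul]
      have e3 : a (T' k') ⬝ᵥ v < b (T' k') := h.strict _ hk'
      have e4 := h'.tight k'
      have e5 := hx (T' k')
      have hrpos : 0 < r := by
        have : 0 < s' * r := by linarith
        exact (pos_iff_pos_of_mul_pos this).1 hs'pos
      have hss : s ≤ s' := by
        have : s * r ≤ s' * r := by linarith
        exact le_of_mul_le_mul_right this hrpos
      refine ⟨1 - s / s', s / s', ?_, by positivity, by ring, ?_⟩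
      · have : s / s' ≤ 1 := (div_le_one hs'pos).2 hss
        linarith
      · rw [hxeq, hv'eq]
        ext q
        simp only [Pi.add_apply, Pi.smul_apply, smul_eq_mul]
        field_simp
        ring
  refine ⟨⟨v, left_mem_segment ℝ v v'⟩, ∑ l ∈ S, a (T l), ∑ l ∈ S, b (T l), ?_, hseg⟩
  intro x hx
  rw [sum_dotProduct]
  exact Finset.sum_le_sum (fun l _ => hx (T l))

end Cert

/-- Certificate theorem over the reals. -/
theorem hasMonotonePath_of_cert {n m : ℕ} (a : Fin n → Fin d → ℝ) (b : Fin n → ℝ)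
    (c : Fin d → ℝ) (T : Fin m → Fin d → Fin n) (v : Fin m → Fin d → ℝ)
    (R : Fin m → Matrix (Fin d) (Fin d) ℝ) (hV : ∀ i, Vtx a b (T i) (v i) (R i))
    (hcover : ∀ j, ∃ i k, T i k = j) (hn : 0 < n)
    (hedge : ∀ i j : Fin m, (j : ℕ) = i + 1 → ∃ k k', (∀ l, T j l ≠ T i k) ∧
      (∀ l, T i l ≠ T j k') ∧ (∀ l, l ≠ k → ∃ l', T j l' = T i l))
    (hmono : ∀ i j : Fin m, (j : ℕ) = i + 1 → c ⬝ᵥ v i < c ⬝ᵥ v j) :
    HasMonotonePath d n m := by
  have : Nonempty (Fin n) := ⟨⟨0, hn⟩⟩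
  obtain ⟨i₀, k₀, -⟩ := hcover ⟨0, hn⟩
  have hdim : dim (poly a b) = d := (hV i₀).dim_poly
  have ha : ∀ j, a j ≠ 0 := by
    intro j
    obtain ⟨i, k, rfl⟩ := hcover j
    exact (hV i).ne_zero k
  have hfac : facets (poly a b) = Set.range (fac a b) := by
    ext F
    constructor
    · intro hF
      obtain ⟨j, hj⟩ := facet_eq_fac ha hdim F hF
      exact ⟨j, hj.symm⟩
    · rintro ⟨j, rfl⟩
      obtain ⟨i, k, rfl⟩ := hcover j
      exact ⟨(hV i).isFace_fac k, (hV i).dim_fac k⟩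
  have hinj : Function.Injective (fac a b) := by
    intro j j' hjj'
    by_contra hne
    obtain ⟨i, k, rfl⟩ := hcover j
    exact (hV i).fac_ne k j' hne hjj'
  refine ⟨poly a b, ⟨n, a, b, rfl⟩, ⟨v i₀, (hV i₀).mem⟩, hdim, ?_, ?_, lin c, v, ?_, ?_⟩
  · rw [hfac]; exact Set.finite_range _
  · rw [hfac, ← Set.image_univ, Set.ncard_image_of_injective _ hinj, Set.ncard_univ,
      Nat.card_eq_fintype_card, Fintype.card_fin]
  · intro i; exact (hV i).isFace
  · intro i j hij
    obtain ⟨k, k', h1, h2, h3⟩ := hedge i j hij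
    exact ⟨isFace_segment (hV i) (hV j) k k' h1 h2 h3, hmono i j hij⟩


/-- Certificate theorem with integer data. `T i` lists the tight inequalities at the `i`-th vertex
of the path, `N i / D i` is the inverse of their matrix. -/
theorem hasMonotonePath_of_int {n m : ℕ} (a : Fin n → Fin d → ℤ) (b : Fin n → ℤ)
    (c : Fin d → ℤ) (T : Fin m → Fin d → Fin n) (N : Fin m → Fin d → Fin d → ℤ) (D : Fin m → ℤ)
    (hD : ∀ i, 0 < D i)
    (hN : ∀ i p q, ∑ k, N i p k * a (T i k) q = if p = q then D i else 0)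
    (hstrict : ∀ i j, (∃ k, T i k = j) ∨
      ∑ q, a j q * (∑ k, N i q k * b (T i k)) < b j * D i)
    (hcover : ∀ j, ∃ i k, T i k = j) (hn : 0 < n)
    (hedge : ∀ i j : Fin m, (j : ℕ) = i + 1 → ∃ k k', (∀ l, T j l ≠ T i k) ∧
      (∀ l, T i l ≠ T j k') ∧ (∀ l, l ≠ k → ∃ l', T j l' = T i l))
    (hmono : ∀ i j : Fin m, (j : ℕ) = i + 1 →
      (∑ q, c q * (∑ k, N i q k * b (T i k))) * D j <
        (∑ q, c q * (∑ k, N j q k * b (T j k))) * D i) :
    HasMonotonePath d n m := by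
  classical
  set a' : Fin n → Fin d → ℝ := fun j q => (a j q : ℝ) with ha'
  set b' : Fin n → ℝ := fun j => (b j : ℝ) with hb'
  set c' : Fin d → ℝ := fun q => (c q : ℝ) with hc'
  have hDr : ∀ i, (0 : ℝ) < D i := fun i => by exact_mod_cast hD i
  set R : Fin m → Matrix (Fin d) (Fin d) ℝ := fun i => Matrix.of fun q k => (N i q k : ℝ) / D i
    with hR
  set v : Fin m → Fin d → ℝ := fun i q => (∑ k, (N i q k : ℝ) * b (T i k)) / D i with hv
  have hinv : ∀ i, R i * Matrix.of (fun k => a' (T i k)) = 1 := by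
    intro i
    ext p q
    rw [Matrix.mul_apply, Matrix.one_apply]
    have h1 : (∑ k, (N i p k : ℝ) * a (T i k) q) = if p = q then (D i : ℝ) else 0 := by
      exact_mod_cast hN i p q
    have h2 : ∑ k, R i p k * Matrix.of (fun k => a' (T i k)) k q =
        (∑ k, (N i p k : ℝ) * a (T i k) q) / D i := by
      rw [Finset.sum_div]
      apply Finset.sum_congr rfl
      intro k _
      simp only [hR, Matrix.of_apply, ha']
      ring
    rw [h2, h1]
    split_ifs
    · exact div_self (hDr i).ne'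
    · simp
  have hvR : ∀ i, v i = R i *ᵥ (fun k => b' (T i k)) := by
    intro i
    ext q
    simp only [hv, hR, mulVec, dotProduct, Matrix.of_apply, hb', Finset.sum_div]
    apply Finset.sum_congr rfl
    intro k _
    ring
  have hdot : ∀ (i : Fin m) (e : Fin d → ℤ), (fun q => (e q : ℝ)) ⬝ᵥ v i =
      ((∑ q, e q * (∑ k, N i q k * b (T i k)) : ℤ) : ℝ) / D i := by
    intro i e
    simp only [hv, dotProduct]
    push_cast
    rw [Finset.sum_div]
    apply Finset.sum_congr rfl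
    intro q _
    ring
  have hV : ∀ i, Vtx a' b' (T i) (v i) (R i) := by
    intro i
    refine ⟨hinv i, ?_, ?_⟩
    · intro k
      have h1 : Matrix.of (fun k => a' (T i k)) *ᵥ v i = fun k => b' (T i k) := by
        rw [hvR i, mulVec_mulVec, mul_eq_one_comm.1 (hinv i), one_mulVec]
      exact congrFun h1 k
    · intro j hj
      rcases hstrict i j with ⟨k, hk⟩ | h
      · exact absurd hk (hj k)
      · have h1 := hdot i (a j)
        change (fun q => (a j q : ℝ)) ⬝ᵥ v i < (b j : ℝ)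
        rw [h1, div_lt_iff₀ (hDr i)]
        exact_mod_cast h
  refine hasMonotonePath_of_cert a' b' c' T v R hV hcover hn hedge ?_
  intro i j hij
  have h1 := hdot i c
  have h2 := hdot j c
  change (fun q => (c q : ℝ)) ⬝ᵥ v i < (fun q => (c q : ℝ)) ⬝ᵥ v j
  rw [h1, h2, div_lt_div_iff₀ (hDr i) (hDr j)]
  exact_mod_cast hmono i j hij

end Pool.Agent.H81.MonoPath
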